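import Pool.Agent.H37R3.Cop

/-! Numbers of induced copies of six-vertex 3-graphs. -/

set_option autoImplicit false
set_option maxRecDepth 100000
set_option maxHeartbeats 4000000
open Finset
open scoped Classical

namespace Pool.Agent.H37R3.Cop
open Pool.Agent.H122R2.N6 Pool.Agent.H37R3.Pen

variable {V : Type}

/-- `S` induces a copy of the six-vertex 3-graph `F` in `H`. -/
def Induces (F : Finset (Finset (Fin 6))) (H : Finset (Finset V)) (S : Finset V) : Prop :=
  ∃ f : Fin 6 → V, Function.Injective f ∧ univ.image f = S ∧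
    ∀ t : Finset (Fin 6), t.card = 3 → (t.image f ∈ H ↔ t ∈ F)

/-- The mask `m` describes the six-vertex 3-graph `F`, all of whose pairs are covered. -/
def Mask (m : ℕ) (F : Finset (Finset (Fin 6))) : Prop :=
  (∀ i j k : Fin 6, i < j → j < k → (bt m (ti i j k) = 1 ↔ ({i, j, k} : Finset (Fin 6)) ∈ F)) ∧
  ∀ i j : Fin 6, i ≠ j → ∃ k : Fin 6, k ≠ i ∧ k ≠ j ∧ bt m (ti i j k) = 1

theorem tri_one {H : Finset (Finset V)} {a b c : V} :
    tri H a b c = 1 ↔ ({a, b, c} : Finset V) ∈ H := by
  unfold tri
  split_ifs with h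
  · simp [h]
  · simp [h]

theorem sorted3 (t : Finset (Fin 6)) (ht : t.card = 3) :
    ∃ i j k : Fin 6, i < j ∧ j < k ∧ t = {i, j, k} := by
  obtain ⟨x, y, z, hxy, hxz, hyz, rfl⟩ := Finset.card_eq_three.mp ht
  rcases lt_or_gt_of_ne hxy with h1 | h1 <;> rcases lt_or_gt_of_ne hxz with h2 | h2 <;>
    rcases lt_or_gt_of_ne hyz with h3 | h3
  · exact ⟨x, y, z, h1, h3, rfl⟩
  · exact ⟨x, z, y, h2, h3, by rw [pair_comm y z]⟩
  · exact absurd (h1.trans h3) (not_lt.mpr h2.le)
  · exact ⟨z, x, y, h2, h1, by ext t; simp; tauto⟩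
  · exact ⟨y, x, z, h1, h2, by rw [insert_comm]⟩
  · exact absurd (h1.trans h2) (not_lt.mpr h3.le)
  · exact ⟨y, z, x, h3, h2, by ext t; simp; tauto⟩
  · exact ⟨z, y, x, h3, h1, by ext t; simp; tauto⟩

theorem induces_of_copy {H : Finset (Finset V)} (hH : ∀ e ∈ H, e.card = 3) {m : ℕ}
    {F : Finset (Finset (Fin 6))} (hm : Mask m F) {f : Fin 6 → V} (hc : Copy (tri H) m f) :
    Induces F H (univ.image f) := by
  have hinj : Function.Injective f := by
    intro i j hij
    by_contra hne
    obtain ⟨k, hk1, hk2, hk3⟩ := hm.2 i j hne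
    have h1 := hc.full (tri_sy H) i j k hne (Ne.symm hk1) (Ne.symm hk2)
    rw [hk3, tri_one] at h1
    exact (distinct_of_mem hH h1).1 hij
  refine ⟨f, hinj, rfl, ?_⟩
  intro t ht
  obtain ⟨i, j, k, hij, hjk, rfl⟩ := sorted3 t ht
  rw [← hm.1 i j k hij hjk, ← hc i j k hij hjk, tri_one]
  simp only [image_insert, image_singleton]

theorem fiber_le [Fintype V] (S : Finset V) (hS : S.card = 6) :
    ((univ : Finset (Fin 6 → V)).filter fun x => univ.image x = S).card ≤ 720 := by
  have hsub : ((univ : Finset (Fin 6 → V)).filter fun x => univ.image x = S) ⊆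
      (univ : Finset (Fin 6 ↪ S)).image (fun e i => (e i : V)) := by
    intro x hx
    rw [mem_filter] at hx
    have hinj : Function.Injective x := by
      have h1 : (univ.image x).card = (univ : Finset (Fin 6)).card := by
        rw [hx.2, hS]; rfl
      have h2 := Finset.injOn_of_card_image_eq h1
      intro i j hij
      exact h2 (by simp) (by simp) hij
    have hmem : ∀ i, x i ∈ S := fun i => by
      rw [← hx.2]; exact mem_image_of_mem _ (mem_univ _)
    rw [mem_image]
    refine ⟨⟨fun i => ⟨x i, hmem i⟩, ?_⟩, mem_univ _, rfl⟩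
    intro i j hij
    exact hinj (congrArg Subtype.val hij)
  refine (card_le_card hsub).trans (card_image_le.trans ?_)
  rw [card_univ, Fintype.card_embedding_eq, Fintype.card_fin, Fintype.card_coe, hS]
  decide

theorem sum_XX_le [Fintype V] {H : Finset (Finset V)} (hH : ∀ e ∈ H, e.card = 3) {mA mB : ℕ}
    {FA FB : Finset (Finset (Fin 6))} (hA : Mask mA FA) (hB : Mask mB FB) :
    ∑ x : Fin 6 → V, XX (tri H) mA mB x ≤
      720 * ((((univ : Finset V).powersetCard 6).filter fun S => Induces FA H S).card +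
        (((univ : Finset V).powersetCard 6).filter fun S => Induces FB H S).card) := by
  set TA := ((univ : Finset V).powersetCard 6).filter fun S => Induces FA H S
  set TB := ((univ : Finset V).powersetCard 6).filter fun S => Induces FB H S
  have e1 : ∑ x : Fin 6 → V, XX (tri H) mA mB x =
      ((univ : Finset (Fin 6 → V)).filter fun x => Rel (tri H) mA mB x).card := by
    rw [card_filter]; rfl
  have hmap : ∀ x ∈ (univ : Finset (Fin 6 → V)).filter (fun x => Rel (tri H) mA mB x),
      univ.image x ∈ TA ∪ TB := by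
    intro x hx
    rw [mem_filter] at hx
    obtain ⟨-, g, hg, hc⟩ := hx
    have hgs : Function.Surjective g := Finite.surjective_of_injective hg
    have him : univ.image (x ∘ g) = univ.image x := by
      ext v
      simp only [mem_image, mem_univ, true_and, Function.comp]
      constructor
      · rintro ⟨i, hi⟩; exact ⟨g i, hi⟩
      · rintro ⟨i, hi⟩
        obtain ⟨j, hj⟩ := hgs i
        exact ⟨j, by rw [hj]; exact hi⟩
    have hcard : ∀ F, Induces F H (univ.image x) → (univ.image x).card = 6 := by
      rintro F ⟨f, hf, hfi, -⟩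
      rw [← hfi, card_image_of_injective _ hf]; rfl
    rw [mem_union]
    rcases hc with hc | hc
    · left
      have h1 := induces_of_copy hH hA hc
      rw [him] at h1
      exact mem_filter.mpr ⟨mem_powersetCard.mpr ⟨subset_univ _, hcard _ h1⟩, h1⟩
    · right
      have h1 := induces_of_copy hH hB hc
      rw [him] at h1
      exact mem_filter.mpr ⟨mem_powersetCard.mpr ⟨subset_univ _, hcard _ h1⟩, h1⟩
  rw [e1, card_eq_sum_card_fiberwise hmap]
  calc _ ≤ ∑ S ∈ TA ∪ TB, 720 := by
        refine sum_le_sum fun S hS => ?_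
        have hS6 : S.card = 6 := by
          rw [mem_union] at hS
          rcases hS with hS | hS <;> exact (mem_powersetCard.mp (mem_filter.mp hS).1).2
        refine (card_le_card ?_).trans (fiber_le S hS6)
        intro x hx
        rw [mem_filter] at hx ⊢
        exact ⟨mem_univ _, hx.2⟩
    _ = 720 * (TA ∪ TB).card := by rw [sum_const, smul_eq_mul, mul_comm]
    _ ≤ 720 * (TA.card + TB.card) := Nat.mul_le_mul_left _ (card_union_le _ _)

end Pool.Agent.H37R3.Cop
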