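import Pool.Agent.H37R3.Pen
import Pool.Agent.H122R2.N6.Count

/-! Labelled copies of six-vertex patterns. -/

set_option autoImplicit false
set_option maxRecDepth 100000
set_option maxHeartbeats 4000000
open Finset
open scoped Classical

namespace Pool.Agent.H37R3.Cop
open Pool.Agent.H122R2.N6 Pool.Agent.H37R3.Pen

/-- the index of a triple of three different elements, `20` otherwise -/
def ti (i j k : Fin 6) : ℕ :=
  if i = j ∨ i = k ∨ j = k then 20
  else
    let a := min i.val (min j.val k.val)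
    let c := max i.val (max j.val k.val)
    let b := i.val + j.val + k.val - a - c
    c * (c - 1) * (c - 2) / 6 + b * (b - 1) / 2 + a

theorem ti_213 : ∀ i j k : Fin 6, ti j i k = ti i j k := by decide
theorem ti_132 : ∀ i j k : Fin 6, ti i k j = ti i j k := by decide

section
variable {V : Type} (E : V → V → V → ℕ)

/-- the labelled six-tuple `x` has pattern `m` -/
def Copy (m : ℕ) (x : Fin 6 → V) : Prop :=
  ∀ i j k : Fin 6, i < j → j < k → E (x i) (x j) (x k) = bt m (ti i j k)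

theorem Copy.full {E : V → V → V → ℕ} (hE : Sy E) {m : ℕ} {x : Fin 6 → V} (h : Copy E m x)
    (i j k : Fin 6) (hij : i ≠ j) (hik : i ≠ k) (hjk : j ≠ k) :
    E (x i) (x j) (x k) = bt m (ti i j k) := by
  rcases lt_or_gt_of_ne hij with h1 | h1 <;> rcases lt_or_gt_of_ne hik with h2 | h2 <;>
    rcases lt_or_gt_of_ne hjk with h3 | h3
  · exact h i j k h1 h3
  · rw [← hE.h132, h i k j h2 h3, ti_132]
  · exact absurd (h1.trans h3) (not_lt.mpr h2.le)
  · rw [← hE.h312, h k i j h2 h1, ti_213, ti_132]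
  · rw [← hE.h213, h j i k h1 h2, ti_213]
  · exact absurd (h1.trans h2) (not_lt.mpr h3.le)
  · rw [← hE.h231, h j k i h3 h2, ti_132, ti_213]
  · rw [hE.h213 (x j) (x i) (x k), hE.h132 (x j) (x k) (x i), hE.h213 (x k) (x j) (x i),
      h k j i h3 h1, ti_213, ti_132, ti_213]

/-- the tuple is a relabelled copy of one of two patterns -/
def Rel (mA mB : ℕ) (x : Fin 6 → V) : Prop :=
  ∃ g : Fin 6 → Fin 6, Function.Injective g ∧ (Copy E mA (x ∘ g) ∨ Copy E mB (x ∘ g))

noncomputable def XX (mA mB : ℕ) (x : Fin 6 → V) : ℕ := if Rel E mA mB x then 1 else 0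

theorem Rel_comp {mA mB : ℕ} {x : Fin 6 → V} (s : Fin 6 → Fin 6) (hs : ∀ i, s (s i) = i)
    (h : Rel E mA mB x) : Rel E mA mB (x ∘ s) := by
  obtain ⟨g, hg, hc⟩ := h
  refine ⟨s ∘ g, ?_, ?_⟩
  · intro i j hij
    apply hg
    have := congrArg s hij
    simpa [hs] using this
  · have e : (x ∘ s) ∘ (s ∘ g) = x ∘ g := by
      funext i; simp [hs]
    rw [e]
    exact hc

theorem XX_comp {mA mB : ℕ} (x : Fin 6 → V) (s : Fin 6 → Fin 6) (hs : ∀ i, s (s i) = i) :
    XX E mA mB (x ∘ s) = XX E mA mB x := by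
  have key : Rel E mA mB (x ∘ s) ↔ Rel E mA mB x := by
    constructor
    · intro h
      have := Rel_comp E s hs h
      have e : (x ∘ s) ∘ s = x := by funext i; simp [hs]
      rwa [e] at this
    · exact Rel_comp E s hs
  unfold XX
  simp only [key]

noncomputable def X6 (mA mB : ℕ) (a b c d e f : V) : ℕ := XX E mA mB ![a, b, c, d, e, f]

theorem X6_0 (mA mB : ℕ) (a b c d e f : V) : X6 E mA mB b a c d e f = X6 E mA mB a b c d e f := by
  unfold X6
  rw [← XX_comp E ![a, b, c, d, e, f] ![1, 0, 2, 3, 4, 5] (by decide)]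
  congr 1
  funext i; fin_cases i <;> rfl

theorem X6_1 (mA mB : ℕ) (a b c d e f : V) : X6 E mA mB a c b d e f = X6 E mA mB a b c d e f := by
  unfold X6
  rw [← XX_comp E ![a, b, c, d, e, f] ![0, 2, 1, 3, 4, 5] (by decide)]
  congr 1
  funext i; fin_cases i <;> rfl

theorem X6_2 (mA mB : ℕ) (a b c d e f : V) : X6 E mA mB a b d c e f = X6 E mA mB a b c d e f := by
  unfold X6
  rw [← XX_comp E ![a, b, c, d, e, f] ![0, 1, 3, 2, 4, 5] (by decide)]
  congr 1
  funext i; fin_cases i <;> rfl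

theorem X6_3 (mA mB : ℕ) (a b c d e f : V) : X6 E mA mB a b c e d f = X6 E mA mB a b c d e f := by
  unfold X6
  rw [← XX_comp E ![a, b, c, d, e, f] ![0, 1, 2, 4, 3, 5] (by decide)]
  congr 1
  funext i; fin_cases i <;> rfl

theorem XX_eq (mA mB : ℕ) (x : Fin 6 → V) :
    X6 E mA mB (x 0) (x 1) (x 2) (x 3) (x 4) (x 5) = XX E mA mB x := by
  unfold X6
  congr 1
  funext i; fin_cases i <;> rfl

/-- digits of a code for a map of `Fin 6` -/
def gp (p : ℕ) (i : Fin 6) : Fin 6 := ⟨p / 8 ^ i.val % 8 % 6, Nat.mod_lt _ (by norm_num)⟩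

/-- `p` codes an injective map which turns pattern `m` into `c` -/
def isoB (c m p : ℕ) : Bool :=
  decide (Function.Injective (gp p)) &&
  decide (∀ i j k : Fin 6, i < j → j < k → bt c (ti (gp p i) (gp p j) (gp p k)) = bt m (ti i j k))

/-- every structure of the list is isomorphic to one of the two patterns -/
def isoL (L : List ℕ) (T : List (ℕ × ℕ × ℕ)) (mA mB : ℕ) : Bool :=
  L.all fun c => T.any fun t => t.1 == c && (t.2.1 == mA || t.2.1 == mB) && isoB c t.2.1 t.2.2

theorem copy_of_iso {E : V → V → V → ℕ} (hE : Sy E) {c m p : ℕ} {x : Fin 6 → V} (h : isoB c m p = true)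
    (hx : Copy E c x) : Function.Injective (gp p) ∧ Copy E m (x ∘ gp p) := by
  unfold isoB at h
  rw [Bool.and_eq_true, decide_eq_true_eq, decide_eq_true_eq] at h
  refine ⟨h.1, ?_⟩
  intro i j k hij hjk
  have h2 := h.2 i j k hij hjk
  rw [← h2]
  exact hx.full hE _ _ _ (fun e => hij.ne (h.1 e)) (fun e => (hij.trans hjk).ne (h.1 e))
    (fun e => hjk.ne (h.1 e))

theorem hmem_of {E : V → V → V → ℕ} (hE : Sy E) {L : List ℕ} {T : List (ℕ × ℕ × ℕ)} {mA mB : ℕ}
    (hL : isoL L T mA mB = true) (a b c d e f : V)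
    (h : mem L (E a b c) (E a b d) (E a c d) (E b c d) (E a b e) (E a c e) (E b c e) (E a d e) (E b d e) (E c d e) (E a b f) (E a c f) (E b c f) (E a d f) (E b d f) (E c d f) (E a e f) (E b e f) (E c e f) (E d e f) = true) :
    X6 E mA mB a b c d e f = 1 := by
  obtain ⟨m, hm, h1⟩ := anyL_true h
  obtain ⟨h0, h1, h2, h3, h4, h5, h6, h7, h8, h9, h10, h11, h12, h13, h14, h15, h16, h17, h18, h19⟩ := eqc_true h1
  have hc : Copy E m ![a, b, c, d, e, f] := by
    intro i j k hij hjk
    fin_cases i <;> fin_cases j <;> first | exact absurd hij (by decide) | skip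
    all_goals fin_cases k <;> first | exact absurd hjk (by decide) | assumption
  unfold isoL at hL
  rw [List.all_eq_true] at hL
  have h20 := hL m hm
  rw [List.any_eq_true] at h20
  obtain ⟨t, ht, h21⟩ := h20
  rw [Bool.and_eq_true, Bool.and_eq_true, Bool.or_eq_true, beq_iff_eq, beq_iff_eq, beq_iff_eq] at h21
  obtain ⟨⟨h22, h23⟩, h24⟩ := h21
  obtain ⟨hi, hcop⟩ := copy_of_iso hE h24 hc
  unfold X6 XX
  rw [if_pos]
  refine ⟨gp t.2.2, hi, ?_⟩
  rcases h23 with h23 | h23
  · left; rw [← h23]; exact hcop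
  · right; rw [← h23]; exact hcop

end
end Pool.Agent.H37R3.Cop
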