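import Pool.Agent.H37R3.Cnt

/-! Labelled copies of a list of six-vertex patterns, and the number of six-vertex sets which induce
one of them. -/

set_option autoImplicit false
set_option maxRecDepth 100000
set_option maxHeartbeats 4000000
open Finset
open scoped Classical

namespace Pool.Agent.H37R3.CopL
open Pool.Agent.H122R2.N6 Pool.Agent.H37R3.Pen Pool.Agent.H37R3.Cop

section
variable {V : Type} (E : V → V → V → ℕ)

/-- the tuple is a relabelled copy of one of the patterns of the list -/
def RelL (M : List ℕ) (x : Fin 6 → V) : Prop :=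
  ∃ g : Fin 6 → Fin 6, Function.Injective g ∧ ∃ m ∈ M, Copy E m (x ∘ g)

noncomputable def XL (M : List ℕ) (x : Fin 6 → V) : ℕ := if RelL E M x then 1 else 0

theorem RelL_comp {M : List ℕ} {x : Fin 6 → V} (s : Fin 6 → Fin 6) (hs : ∀ i, s (s i) = i)
    (h : RelL E M x) : RelL E M (x ∘ s) := by
  obtain ⟨g, hg, hc⟩ := h
  refine ⟨s ∘ g, ?_, ?_⟩
  · intro i j hij
    apply hg
    have := congrArg s hij
    simpa [hs] using this
  · have e : (x ∘ s) ∘ (s ∘ g) = x ∘ g := by
      funext i; simp [hs]
    rw [e]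
    exact hc

theorem XL_comp {M : List ℕ} (x : Fin 6 → V) (s : Fin 6 → Fin 6) (hs : ∀ i, s (s i) = i) :
    XL E M (x ∘ s) = XL E M x := by
  have key : RelL E M (x ∘ s) ↔ RelL E M x := by
    constructor
    · intro h
      have := RelL_comp E s hs h
      have e : (x ∘ s) ∘ s = x := by funext i; simp [hs]
      rwa [e] at this
    · exact RelL_comp E s hs
  unfold XL
  simp only [key]

noncomputable def XL6 (M : List ℕ) (a b c d e f : V) : ℕ := XL E M ![a, b, c, d, e, f]

theorem XL6_0 (M : List ℕ) (a b c d e f : V) : XL6 E M b a c d e f = XL6 E M a b c d e f := by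
  unfold XL6
  rw [← XL_comp E ![a, b, c, d, e, f] ![1, 0, 2, 3, 4, 5] (by decide)]
  congr 1
  funext i; fin_cases i <;> rfl

theorem XL6_1 (M : List ℕ) (a b c d e f : V) : XL6 E M a c b d e f = XL6 E M a b c d e f := by
  unfold XL6
  rw [← XL_comp E ![a, b, c, d, e, f] ![0, 2, 1, 3, 4, 5] (by decide)]
  congr 1
  funext i; fin_cases i <;> rfl

theorem XL6_2 (M : List ℕ) (a b c d e f : V) : XL6 E M a b d c e f = XL6 E M a b c d e f := by
  unfold XL6
  rw [← XL_comp E ![a, b, c, d, e, f] ![0, 1, 3, 2, 4, 5] (by decide)]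
  congr 1
  funext i; fin_cases i <;> rfl

theorem XL6_3 (M : List ℕ) (a b c d e f : V) : XL6 E M a b c e d f = XL6 E M a b c d e f := by
  unfold XL6
  rw [← XL_comp E ![a, b, c, d, e, f] ![0, 1, 2, 4, 3, 5] (by decide)]
  congr 1
  funext i; fin_cases i <;> rfl

theorem XL_eq (M : List ℕ) (x : Fin 6 → V) :
    XL6 E M (x 0) (x 1) (x 2) (x 3) (x 4) (x 5) = XL E M x := by
  unfold XL6
  congr 1
  funext i; fin_cases i <;> rfl

/-- every structure of the list is isomorphic to one of the patterns -/
def isoM (L : List ℕ) (T : List (ℕ × ℕ × ℕ)) (M : List ℕ) : Bool :=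
  L.all fun c => T.any fun t => t.1 == c && M.any (fun m => m == t.2.1) && isoB c t.2.1 t.2.2

theorem hmemL_of {E : V → V → V → ℕ} (hE : Sy E) {L : List ℕ} {T : List (ℕ × ℕ × ℕ)} {M : List ℕ}
    (hL : isoM L T M = true) (a b c d e f : V)
    (h : mem L (E a b c) (E a b d) (E a c d) (E b c d) (E a b e) (E a c e) (E b c e) (E a d e) (E b d e) (E c d e) (E a b f) (E a c f) (E b c f) (E a d f) (E b d f) (E c d f) (E a e f) (E b e f) (E c e f) (E d e f) = true) :
    XL6 E M a b c d e f = 1 := by
  obtain ⟨m, hm, h1⟩ := anyL_true h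
  obtain ⟨h0, h1, h2, h3, h4, h5, h6, h7, h8, h9, h10, h11, h12, h13, h14, h15, h16, h17, h18, h19⟩ := eqc_true h1
  have hc : Copy E m ![a, b, c, d, e, f] := by
    intro i j k hij hjk
    fin_cases i <;> fin_cases j <;> first | exact absurd hij (by decide) | skip
    all_goals fin_cases k <;> first | exact absurd hjk (by decide) | assumption
  unfold isoM at hL
  rw [List.all_eq_true] at hL
  have h20 := hL m hm
  rw [List.any_eq_true] at h20
  obtain ⟨t, ht, h21⟩ := h20
  rw [Bool.and_eq_true, Bool.and_eq_true, beq_iff_eq, List.any_eq_true] at h21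
  obtain ⟨⟨h22, m', hm', h23⟩, h24⟩ := h21
  rw [beq_iff_eq] at h23
  obtain ⟨hi, hcop⟩ := copy_of_iso hE h24 hc
  unfold XL6 XL
  rw [if_pos]
  exact ⟨gp t.2.2, hi, m', hm', by rw [h23]; exact hcop⟩

end

variable {V : Type}

/-- `S` induces a copy of one of the 3-graphs of the list -/
def IndL (Fs : List (Finset (Finset (Fin 6)))) (H : Finset (Finset V)) (S : Finset V) : Prop :=
  ∃ F ∈ Fs, Induces F H S

theorem sum_XL_le [Fintype V] {H : Finset (Finset V)} (hH : ∀ e ∈ H, e.card = 3) {M : List ℕ}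
    {Fs : List (Finset (Finset (Fin 6)))} (hM : ∀ m ∈ M, ∃ F ∈ Fs, Mask m F) :
    ∑ x : Fin 6 → V, XL (tri H) M x ≤
      720 * (((univ : Finset V).powersetCard 6).filter fun S => IndL Fs H S).card := by
  set TA := ((univ : Finset V).powersetCard 6).filter fun S => IndL Fs H S with hTA
  have e1 : ∑ x : Fin 6 → V, XL (tri H) M x =
      ((univ : Finset (Fin 6 → V)).filter fun x => RelL (tri H) M x).card := by
    rw [card_filter]; rfl
  have hmap : ∀ x ∈ (univ : Finset (Fin 6 → V)).filter (fun x => RelL (tri H) M x),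
      univ.image x ∈ TA := by
    intro x hx
    rw [mem_filter] at hx
    obtain ⟨-, g, hg, m, hm, hc⟩ := hx
    obtain ⟨F, hF, hmF⟩ := hM m hm
    have hgs : Function.Surjective g := Finite.surjective_of_injective hg
    have him : univ.image (x ∘ g) = univ.image x := by
      ext v
      simp only [mem_image, mem_univ, true_and, Function.comp]
      constructor
      · rintro ⟨i, hi⟩; exact ⟨g i, hi⟩
      · rintro ⟨i, hi⟩
        obtain ⟨j, hj⟩ := hgs i
        exact ⟨j, by rw [hj]; exact hi⟩
    have h1 := induces_of_copy hH hmF hc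
    rw [him] at h1
    have hcard : (univ.image x).card = 6 := by
      obtain ⟨f, hf, hfi, -⟩ := h1
      rw [← hfi, card_image_of_injective _ hf]; rfl
    rw [hTA]
    exact mem_filter.mpr ⟨mem_powersetCard.mpr ⟨subset_univ _, hcard⟩, F, hF, h1⟩
  rw [e1, card_eq_sum_card_fiberwise hmap]
  calc _ ≤ ∑ S ∈ TA, 720 := by
        refine sum_le_sum fun S hS => ?_
        have hS6 : S.card = 6 := (mem_powersetCard.mp (mem_filter.mp hS).1).2
        refine (card_le_card ?_).trans (fiber_le S hS6)
        intro x hx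
        rw [mem_filter] at hx ⊢
        exact ⟨mem_univ _, hx.2⟩
    _ = 720 * TA.card := by rw [sum_const, smul_eq_mul, mul_comm]

end Pool.Agent.H37R3.CopL
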