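import Pool.Agent.H122R2.N6.Bound2

/-! Six-vertex flags with penalty terms for listed structures. -/

set_option autoImplicit false
set_option maxRecDepth 100000
set_option maxHeartbeats 4000000
open Finset

namespace Pool.Agent.H37R3.Pen
open Pool.Agent.H122R2.N6

def bt (c i : ℕ) : ℕ := Nat.mod (Nat.shiftRight c i) 2

def anyL (L : List ℕ) (f : ℕ → Bool) : Bool := List.rec false (fun c _ ih => or (f c) ih) L

theorem anyL_true {L : List ℕ} {f : ℕ → Bool} (h : anyL L f = true) : ∃ c ∈ L, f c = true := by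
  induction L with
  | nil =>
    have h' : false = true := h
    exact absurd h' (by decide)
  | cons c L ih =>
    have h' : (f c || anyL L f) = true := h
    rw [Bool.or_eq_true] at h'
    rcases h' with h' | h'
    · exact ⟨c, List.mem_cons_self, h'⟩
    · obtain ⟨d, hd, hf⟩ := ih h'
      exact ⟨d, List.mem_cons_of_mem _ hd, hf⟩

def eqc (c b012 b013 b023 b123 b014 b024 b124 b034 b134 b234 b015 b025 b125 b035 b135 b235 b045 b145 b245 b345 : ℕ) : Bool := and (Nat.beq b012 (bt c 0)) (and (Nat.beq b013 (bt c 1)) (and (Nat.beq b023 (bt c 2)) (and (Nat.beq b123 (bt c 3)) (and (Nat.beq b014 (bt c 4)) (and (Nat.beq b024 (bt c 5)) (and (Nat.beq b124 (bt c 6)) (and (Nat.beq b034 (bt c 7)) (and (Nat.beq b134 (bt c 8)) (and (Nat.beq b234 (bt c 9)) (and (Nat.beq b015 (bt c 10)) (and (Nat.beq b025 (bt c 11)) (and (Nat.beq b125 (bt c 12)) (and (Nat.beq b035 (bt c 13)) (and (Nat.beq b135 (bt c 14)) (and (Nat.beq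 b235 (bt c 15)) (and (Nat.beq b045 (bt c 16)) (and (Nat.beq b145 (bt c 17)) (and (Nat.beq b245 (bt c 18)) (Nat.beq b345 (bt c 19))))))))))))))))))))

def mem (L : List ℕ) (b012 b013 b023 b123 b014 b024 b124 b034 b134 b234 b015 b025 b125 b035 b135 b235 b045 b145 b245 b345 : ℕ) : Bool := anyL L fun c => eqc c b012 b013 b023 b123 b014 b024 b124 b034 b134 b234 b015 b025 b125 b035 b135 b235 b045 b145 b245 b345

/-- the leaf inequality, with a penalty on the structures of the list -/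
def chkX (q4 : ℕ → ℕ → ℕ → ℕ) (q2 : ℕ → ℕ → ℕ) (C P : ℕ) (L : List ℕ) (b012 b013 b023 b123 b014 b024 b124 b034 b134 b234 : ℕ) : Bool :=
  B2 fun b015 => B2 fun b025 => B2 fun b125 => or (k4b b012 b015 b025 b125) (B2 fun b035 => B2 fun b135 => or (k4b b013 b015 b035 b135) (B2 fun b235 => or (k4b b023 b025 b035 b235) (or (k4b b123 b125 b135 b235) (B2 fun b045 => B2 fun b145 => or (k4b b014 b015 b045 b145) (B2 fun b245 => or (k4b b024 b025 b045 b245) (or (k4b b124 b125 b145 b245) (B2 fun b345 => or (k4b b034 b035 b045 b345) (or (k4b b134 b135 b145 b345) (or (k4b b234 b235 b245 b345) (or (Nat.ble (Nat.add (leaf4 q4 b012 b013 b023 b123 b014 b024 b124 b034 b134 b234 b015 b025 b125 b035 b135 b235 b045 b145 b245 b345) (leaf2 q2 b012 b013 b023 b123 b014 b024 b124 b034 b134 b234 b015 b025 b125 b035 b135 b235 b045 b145 b245 b345)) C) (and (mem L b012 b013 b023 b123 b014 b024 b124 b034 b134 b234 b015 b025 b125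 b035 b135 b235 b045 b145 b245 b345) (Nat.ble (Nat.add (leaf4 q4 b012 b013 b023 b123 b014 b024 b124 b034 b134 b234 b015 b025 b125 b035 b135 b235 b045 b145 b245 b345) (leaf2 q2 b012 b013 b023 b123 b014 b024 b124 b034 b134 b234 b015 b025 b125 b035 b135 b235 b045 b145 b245 b345)) (Nat.add C P)))))))))))))

section
variable {V : Type} {E : V → V → V → ℕ}

theorem eqc_true {c b012 b013 b023 b123 b014 b024 b124 b034 b134 b234 b015 b025 b125 b035 b135 b235 b045 b145 b245 b345 : ℕ} (h : eqc c b012 b013 b023 b123 b014 b024 b124 b034 b134 b234 b015 b025 b125 b035 b135 b235 b045 b145 b245 b345 = true) :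
    b012 = bt c 0 ∧ b013 = bt c 1 ∧ b023 = bt c 2 ∧ b123 = bt c 3 ∧ b014 = bt c 4 ∧ b024 = bt c 5 ∧ b124 = bt c 6 ∧ b034 = bt c 7 ∧ b134 = bt c 8 ∧ b234 = bt c 9 ∧ b015 = bt c 10 ∧ b025 = bt c 11 ∧ b125 = bt c 12 ∧ b035 = bt c 13 ∧ b135 = bt c 14 ∧ b235 = bt c 15 ∧ b045 = bt c 16 ∧ b145 = bt c 17 ∧ b245 = bt c 18 ∧ b345 = bt c 19 := by
  unfold eqc at h
  simp only [Bool.and_eq_true] at h
  obtain ⟨h0, h1, h2, h3, h4, h5, h6, h7, h8, h9, h10, h11, h12, h13, h14, h15, h16, h17, h18, h19⟩ := h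
  exact ⟨Nat.eq_of_beq_eq_true h0, Nat.eq_of_beq_eq_true h1, Nat.eq_of_beq_eq_true h2, Nat.eq_of_beq_eq_true h3, Nat.eq_of_beq_eq_true h4, Nat.eq_of_beq_eq_true h5, Nat.eq_of_beq_eq_true h6, Nat.eq_of_beq_eq_true h7, Nat.eq_of_beq_eq_true h8, Nat.eq_of_beq_eq_true h9, Nat.eq_of_beq_eq_true h10, Nat.eq_of_beq_eq_true h11, Nat.eq_of_beq_eq_true h12, Nat.eq_of_beq_eq_true h13, Nat.eq_of_beq_eq_true h14, Nat.eq_of_beq_eq_true h15, Nat.eq_of_beq_eq_true h16, Nat.eq_of_beq_eq_true h17, Nat.eq_of_beq_eq_true h18, Nat.eq_of_beq_eq_true h19⟩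

theorem chkX_sound (hE : Sy E) (hK : NoK4 E) {q4 : ℕ → ℕ → ℕ → ℕ} {q2 : ℕ → ℕ → ℕ} {C P : ℕ} {L : List ℕ}
    {X : V → V → V → V → V → V → ℕ} (a b c d e f : V)
    (hmem : mem L (E a b c) (E a b d) (E a c d) (E b c d) (E a b e) (E a c e) (E b c e) (E a d e) (E b d e) (E c d e) (E a b f) (E a c f) (E b c f) (E a d f) (E b d f) (E c d f) (E a e f) (E b e f) (E c e f) (E d e f) = true → X a b c d e f = 1)
    (h : chkX q4 q2 C P L (E a b c) (E a b d) (E a c d) (E b c d) (E a b e) (E a c e) (E b c e) (E a d e) (E b d e) (E c d e) = true) :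
    K4l E q4 a b c d e f + K2l E q2 a b c d e f ≤ C + P * X a b c d e f := by
  have h1 := (or_false_left (or_false_left (or_false_left (B2_true (or_false_left (or_false_left (B2_true (or_false_left (B2_true (B2_true (or_false_left (or_false_left (B2_true (or_false_left (B2_true (B2_true (or_false_left (B2_true (B2_true (B2_true h (hE.b a b f)) (hE.b a c f)) (hE.b b c f)) (hK a b c f)) (hE.b a d f)) (hE.b b d f)) (hK a b d f)) (hE.b c d f)) (hK a c d f)) (hK b c d f)) (hE.b a e f)) (hE.b b e f)) (hK a b e f)) (hE.b c e f)) (hK a c e f)) (hK b c e f)) (hE.b d e f)) (hK a d e f)) (hK b d e f)) (hK c d e f))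
  rw [Bool.or_eq_true] at h1
  rcases h1 with h1 | h1
  · exact le_trans (Nat.le_of_ble_eq_true h1) (Nat.le_add_right _ _)
  · rw [Bool.and_eq_true] at h1
    rw [hmem h1.1, mul_one]
    exact Nat.le_of_ble_eq_true h1.2

def GoodX (E : V → V → V → ℕ) (q4 : ℕ → ℕ → ℕ → ℕ) (q2 : ℕ → ℕ → ℕ) (C P : ℕ) (X : V → V → V → V → V → V → ℕ) (b012 b013 b023 b123 b014 b024 b124 b034 b134 b234 : ℕ) : Prop :=
  ∀ a b c d e f : V, E a b c = b012 → E a b d = b013 → E a c d = b023 → E b c d = b123 → E a b e = b014 → E a c e = b024 → E b c e = b124 → E a d e = b034 → E b d e = b134 → E c d e = b234 →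
    L4 E q4 a b c d e f + L2 E q2 a b c d e f ≤ C + P * X a b c d e f

theorem rep_goodX (hE : Sy E) (hK : NoK4 E) {q4 : ℕ → ℕ → ℕ → ℕ} {q2 : ℕ → ℕ → ℕ} {C P : ℕ} {L : List ℕ}
    {X : V → V → V → V → V → V → ℕ}
    (hmem : ∀ a b c d e f, mem L (E a b c) (E a b d) (E a c d) (E b c d) (E a b e) (E a c e) (E b c e) (E a d e) (E b d e) (E c d e) (E a b f) (E a c f) (E b c f) (E a d f) (E b d f) (E c d f) (E a e f) (E b e f) (E c e f) (E d e f) = true → X a b c d e f = 1)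
    (hc : ∀ b012 b013 b023 b123 b014 b024 b124 b034 b134 b234 : ℕ, Bt b012 → Bt b013 → Bt b023 → Bt b123 → Bt b014 → Bt b024 → Bt b124 → Bt b034 → Bt b134 → Bt b234 → tg b012 b013 b023 b123 b014 b024 b124 b034 b134 b234 = 4 → chkX q4 q2 C P L b012 b013 b023 b123 b014 b024 b124 b034 b134 b234 = true)
    (b012 b013 b023 b123 b014 b024 b124 b034 b134 b234 : ℕ) (ht : tg b012 b013 b023 b123 b014 b024 b124 b034 b134 b234 = 4) : GoodX E q4 q2 C P X b012 b013 b023 b123 b014 b024 b124 b034 b134 b234 := by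
  intro a b c d e f h0 h1 h2 h3 h4 h5 h6 h7 h8 h9
  subst h0 h1 h2 h3 h4 h5 h6 h7 h8 h9
  have h := hc _ _ _ _ _ _ _ _ _ _ (hE.b _ _ _) (hE.b _ _ _) (hE.b _ _ _) (hE.b _ _ _) (hE.b _ _ _) (hE.b _ _ _) (hE.b _ _ _) (hE.b _ _ _) (hE.b _ _ _) (hE.b _ _ _) ht
  have h2 := chkX_sound hE hK a b c d e f (hmem a b c d e f) h
  rwa [K4l_eq E q4 hE.h132 hE.h231 hE.h213 hE.h312, K2l_eq E q2 hE.h132 hE.h231 hE.h213 hE.h312] at h2

theorem goodX_sw0 (hE : Sy E) {q4 : ℕ → ℕ → ℕ → ℕ} {q2 : ℕ → ℕ → ℕ} {C P : ℕ}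
    {X : V → V → V → V → V → V → ℕ} (hX : ∀ a b c d e f, X b a c d e f = X a b c d e f)
    (hs4 : sym4 q4 = true) (hs2 : sym2 q2 = true) (b012 b013 b023 b123 b014 b024 b124 b034 b134 b234 : ℕ)
    (h : GoodX E q4 q2 C P X b012 b013 b123 b023 b014 b124 b024 b134 b034 b234) : GoodX E q4 q2 C P X b012 b013 b023 b123 b014 b024 b124 b034 b134 b234 := by
  intro a b c d e f h0 h1 h2 h3 h4 h5 h6 h7 h8 h9
  have h' := h b a c d e f ((hE.h213 _ _ _).trans h0) ((hE.h213 _ _ _).trans h1) h3 h2 ((hE.h213 _ _ _).trans h4) h6 h5 h8 h7 h9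
  rwa [L4_sw0 hE hs4, L2_sw0 hE hs2, hX] at h'

theorem goodX_sw1 (hE : Sy E) {q4 : ℕ → ℕ → ℕ → ℕ} {q2 : ℕ → ℕ → ℕ} {C P : ℕ}
    {X : V → V → V → V → V → V → ℕ} (hX : ∀ a b c d e f, X a c b d e f = X a b c d e f)
    (hs4 : sym4 q4 = true) (hs2 : sym2 q2 = true) (b012 b013 b023 b123 b014 b024 b124 b034 b134 b234 : ℕ)
    (h : GoodX E q4 q2 C P X b012 b023 b013 b123 b024 b014 b124 b034 b234 b134) : GoodX E q4 q2 C P X b012 b013 b023 b123 b014 b024 b124 b034 b134 b234 := by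
  intro a b c d e f h0 h1 h2 h3 h4 h5 h6 h7 h8 h9
  have h' := h a c b d e f ((hE.h132 _ _ _).trans h0) h2 h1 ((hE.h213 _ _ _).trans h3) h5 h4 ((hE.h213 _ _ _).trans h6) h7 h9 h8
  rwa [L4_sw1 hE hs4, L2_sw1 hE hs2, hX] at h'

theorem goodX_sw2 (hE : Sy E) {q4 : ℕ → ℕ → ℕ → ℕ} {q2 : ℕ → ℕ → ℕ} {C P : ℕ}
    {X : V → V → V → V → V → V → ℕ} (hX : ∀ a b c d e f, X a b d c e f = X a b c d e f)
    (hs4 : sym4 q4 = true) (hs2 : sym2 q2 = true) (b012 b013 b023 b123 b014 b024 b124 b034 b134 b234 : ℕ)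
    (h : GoodX E q4 q2 C P X b013 b012 b023 b123 b014 b034 b134 b024 b124 b234) : GoodX E q4 q2 C P X b012 b013 b023 b123 b014 b024 b124 b034 b134 b234 := by
  intro a b c d e f h0 h1 h2 h3 h4 h5 h6 h7 h8 h9
  have h' := h a b d c e f h1 h0 ((hE.h132 _ _ _).trans h2) ((hE.h132 _ _ _).trans h3) h4 h7 h8 h5 h6 ((hE.h213 _ _ _).trans h9)
  rwa [L4_sw2 hE hs4, L2_sw2 hE hs2, hX] at h'

theorem goodX_sw3 (hE : Sy E) {q4 : ℕ → ℕ → ℕ → ℕ} {q2 : ℕ → ℕ → ℕ} {C P : ℕ}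
    {X : V → V → V → V → V → V → ℕ} (hX : ∀ a b c d e f, X a b c e d f = X a b c d e f)
    (hs4 : sym4 q4 = true) (hs2 : sym2 q2 = true) (b012 b013 b023 b123 b014 b024 b124 b034 b134 b234 : ℕ)
    (h : GoodX E q4 q2 C P X b012 b014 b024 b124 b013 b023 b123 b034 b134 b234) : GoodX E q4 q2 C P X b012 b013 b023 b123 b014 b024 b124 b034 b134 b234 := by
  intro a b c d e f h0 h1 h2 h3 h4 h5 h6 h7 h8 h9
  have h' := h a b c e d f h0 h4 h5 h6 h1 h2 h3 ((hE.h132 _ _ _).trans h7) ((hE.h132 _ _ _).trans h8) ((hE.h132 _ _ _).trans h9)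
  rwa [L4_sw3 hE hs4, L2_sw3 hE hs2, hX] at h'

theorem walk_goodX (hE : Sy E) {q4 : ℕ → ℕ → ℕ → ℕ} {q2 : ℕ → ℕ → ℕ} {C P : ℕ}
    {X : V → V → V → V → V → V → ℕ} (hX0 : ∀ a b c d e f, X b a c d e f = X a b c d e f)
    (hX1 : ∀ a b c d e f, X a c b d e f = X a b c d e f)
    (hX2 : ∀ a b c d e f, X a b d c e f = X a b c d e f)
    (hX3 : ∀ a b c d e f, X a b c e d f = X a b c d e f)
    (hs4 : sym4 q4 = true) (hs2 : sym2 q2 = true)
    (hr : ∀ b012 b013 b023 b123 b014 b024 b124 b034 b134 b234 : ℕ, tg b012 b013 b023 b123 b014 b024 b124 b034 b134 b234 = 4 → GoodX E q4 q2 C P X b012 b013 b023 b123 b014 b024 b124 b034 b134 b234) (n : ℕ) :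
    ∀ b012 b013 b023 b123 b014 b024 b124 b034 b134 b234 : ℕ, walk n b012 b013 b023 b123 b014 b024 b124 b034 b134 b234 = true → GoodX E q4 q2 C P X b012 b013 b023 b123 b014 b024 b124 b034 b134 b234 := by
  induction n with
  | zero =>
    intro b012 b013 b023 b123 b014 b024 b124 b034 b134 b234 h
    exact hr _ _ _ _ _ _ _ _ _ _ (Nat.eq_of_beq_eq_true h)
  | succ n ih =>
    intro b012 b013 b023 b123 b014 b024 b124 b034 b134 b234 h
    change (cond (Nat.beq (tg b012 b013 b023 b123 b014 b024 b124 b034 b134 b234) 4) true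
      (cond (Nat.beq (tg b012 b013 b023 b123 b014 b024 b124 b034 b134 b234) 0) (walk n b012 b013 b123 b023 b014 b124 b024 b134 b034 b234)
      (cond (Nat.beq (tg b012 b013 b023 b123 b014 b024 b124 b034 b134 b234) 1) (walk n b012 b023 b013 b123 b024 b014 b124 b034 b234 b134)
      (cond (Nat.beq (tg b012 b013 b023 b123 b014 b024 b124 b034 b134 b234) 2) (walk n b013 b012 b023 b123 b014 b034 b134 b024 b124 b234)
      (cond (Nat.beq (tg b012 b013 b023 b123 b014 b024 b124 b034 b134 b234) 3) (walk n b012 b014 b024 b124 b013 b023 b123 b034 b134 b234) false))))) = true at h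
    cases h4 : Nat.beq (tg b012 b013 b023 b123 b014 b024 b124 b034 b134 b234) 4 with
    | true => exact hr _ _ _ _ _ _ _ _ _ _ (Nat.eq_of_beq_eq_true h4)
    | false =>
    rw [h4] at h
    cases h0 : Nat.beq (tg b012 b013 b023 b123 b014 b024 b124 b034 b134 b234) 0 with
    | true => rw [h0] at h; exact goodX_sw0 hE hX0 hs4 hs2 _ _ _ _ _ _ _ _ _ _ (ih _ _ _ _ _ _ _ _ _ _ h)
    | false =>
    rw [h0] at h
    cases h1 : Nat.beq (tg b012 b013 b023 b123 b014 b024 b124 b034 b134 b234) 1 with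
    | true => rw [h1] at h; exact goodX_sw1 hE hX1 hs4 hs2 _ _ _ _ _ _ _ _ _ _ (ih _ _ _ _ _ _ _ _ _ _ h)
    | false =>
    rw [h1] at h
    cases h2 : Nat.beq (tg b012 b013 b023 b123 b014 b024 b124 b034 b134 b234) 2 with
    | true => rw [h2] at h; exact goodX_sw2 hE hX2 hs4 hs2 _ _ _ _ _ _ _ _ _ _ (ih _ _ _ _ _ _ _ _ _ _ h)
    | false =>
    rw [h2] at h
    cases h3 : Nat.beq (tg b012 b013 b023 b123 b014 b024 b124 b034 b134 b234) 3 with
    | true => rw [h3] at h; exact goodX_sw3 hE hX3 hs4 hs2 _ _ _ _ _ _ _ _ _ _ (ih _ _ _ _ _ _ _ _ _ _ h)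
    | false => rw [h3] at h; simp at h

theorem leafX_all (hE : Sy E) (hK : NoK4 E) {q4 : ℕ → ℕ → ℕ → ℕ} {q2 : ℕ → ℕ → ℕ} {C P : ℕ} {L : List ℕ}
    {X : V → V → V → V → V → V → ℕ} (hX0 : ∀ a b c d e f, X b a c d e f = X a b c d e f)
    (hX1 : ∀ a b c d e f, X a c b d e f = X a b c d e f)
    (hX2 : ∀ a b c d e f, X a b d c e f = X a b c d e f)
    (hX3 : ∀ a b c d e f, X a b c e d f = X a b c d e f)
    (hmem : ∀ a b c d e f, mem L (E a b c) (E a b d) (E a c d) (E b c d) (E a b e) (E a c e) (E b c e) (E a d e) (E b d e) (E c d e) (E a b f) (E a c f) (E b c f) (E a d f) (E b d f) (E c d f) (E a e f) (E b e f) (E c e f) (E d e f) = true → X a b c d e f = 1)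
    (hs4 : sym4 q4 = true) (hs2 : sym2 q2 = true)
    (hc : ∀ b012 b013 b023 b123 b014 b024 b124 b034 b134 b234 : ℕ, Bt b012 → Bt b013 → Bt b023 → Bt b123 → Bt b014 → Bt b024 → Bt b124 → Bt b034 → Bt b134 → Bt b234 → tg b012 b013 b023 b123 b014 b024 b124 b034 b134 b234 = 4 → chkX q4 q2 C P L b012 b013 b023 b123 b014 b024 b124 b034 b134 b234 = true)
    (a b c d e f : V) : L4 E q4 a b c d e f + L2 E q2 a b c d e f ≤ C + P * X a b c d e f := by
  have h := (B2_true (B2_true (B2_true (B2_true (B2_true (B2_true (B2_true (B2_true (B2_true (B2_true walk_all (hE.b a b c)) (hE.b a b d)) (hE.b a c d)) (hE.b b c d)) (hE.b a b e)) (hE.b a c e)) (hE.b b c e)) (hE.b a d e)) (hE.b b d e)) (hE.b c d e))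
  have h5 : five (E a b c) (E a b d) (E a c d) (E b c d) (E a b e) (E a c e) (E b c e) (E a d e) (E b d e) (E c d e) = false := by
    unfold five
    rw [hK a b c d, hK a b c e, hK a b d e, hK a c d e, hK b c d e]
    rfl
  have hw := or_false_left h h5
  exact walk_goodX hE hX0 hX1 hX2 hX3 hs4 hs2 (fun b012 b013 b023 b123 b014 b024 b124 b034 b134 b234 h4 => rep_goodX hE hK hmem hc b012 b013 b023 b123 b014 b024 b124 b034 b134 b234 h4) _ _ _ _ _ _ _ _ _ _ _ hw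
    a b c d e f rfl rfl rfl rfl rfl rfl rfl rfl rfl rfl


end

section
variable {V : Type} [Fintype V] (E : V → V → V → ℕ)

theorem boundX (hE : Sy E) (K K2 C P : ℕ) (X : V → V → V → V → V → V → ℕ)
    (q4 : ℕ → ℕ → ℕ → ℕ) (W : ℕ → ℕ → ℕ) (l : ℕ → ℕ → ℕ → ℕ)
    (q2 : ℕ → ℕ → ℕ) (W2 : ℕ → ℕ) (l2 : ℕ → ℕ → ℕ) (B O4 O2 : ℤ) (t : ℕ → ℤ)
    (hq4 : ∀ c i j, c < 16 → i < 64 → j < 64 → (q4 c i j : ℤ) =
      ∑ k ∈ range K, (W c k : ℤ) * ((l c i k : ℤ) - B) * ((l c j k : ℤ) - B) + O4)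
    (hq2 : ∀ i j, i < 16 → j < 16 → (q2 i j : ℤ) =
      ∑ k ∈ range K2, (W2 k : ℤ) * ((l2 i k : ℤ) - B) * ((l2 j k : ℤ) - B) + (O2 + t (kk i j)))
    (hleaf : ∀ a b c d e f : V, L4 E q4 a b c d e f + L2 E q2 a b c d e f ≤ C + P * X a b c d e f) :
    45 * T2 E t + (15 * O4 + 45 * O2) * (Fintype.card V : ℤ) ^ 6
      ≤ C * (Fintype.card V : ℤ) ^ 6 +
        P * ∑ x : Fin 6 → V, (X (x 0) (x 1) (x 2) (x 3) (x 4) (x 5) : ℤ) := by
  have A4 := lower4 E hE K q4 W l B O4 (fun _ => 0) (fun c i j hc hi hj => by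
    rw [hq4 c i j hc hi hj, add_zero])
  have hz : Sv E (fun _ => 0) = 0 := by unfold Sv; simp
  rw [hz] at A4
  have A2 := lower2t E hE K2 q2 W2 l2 B O2 t hq2
  have key : ∑ x : Fin 6 → V, ((L4 E q4 (x 0) (x 1) (x 2) (x 3) (x 4) (x 5) : ℤ)
      + (L2 E q2 (x 0) (x 1) (x 2) (x 3) (x 4) (x 5) : ℤ)) ≤ C * (Fintype.card V : ℤ) ^ 6 +
        P * ∑ x : Fin 6 → V, (X (x 0) (x 1) (x 2) (x 3) (x 4) (x 5) : ℤ) := by
    calc _ ≤ ∑ x : Fin 6 → V, ((C : ℤ) + P * (X (x 0) (x 1) (x 2) (x 3) (x 4) (x 5) : ℤ)) :=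
          sum_le_sum fun x _ => by exact_mod_cast hleaf (x 0) (x 1) (x 2) (x 3) (x 4) (x 5)
      _ = C * (Fintype.card V : ℤ) ^ 6 +
        P * ∑ x : Fin 6 → V, (X (x 0) (x 1) (x 2) (x 3) (x 4) (x 5) : ℤ) := by
          rw [sum_add_distrib, sum_const, card_univ, Fintype.card_fun, Fintype.card_fin,
            nsmul_eq_mul, mul_sum]
          push_cast
          ring
  rw [sum_add_distrib, sumL4 E q4, sumL2 E q2] at key
  linarith

/-- the objective for a linear function of the number of edges -/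
theorem T2_lin (hE : Sy E) (τ : ℤ) :
    T2 E (fun k => τ * k) = 4 * τ * (Fintype.card V : ℤ) ^ 3 * ∑ a, ∑ b, ∑ c, (E a b c : ℤ) := by
  unfold T2
  have e1 : ∀ a b, ∑ c, ∑ d, ∑ e, ∑ f, τ * (((E a b c + E a b d + (E a b e + E a b f) : ℕ)) : ℤ) =
      4 * τ * (Fintype.card V : ℤ) ^ 3 * ∑ c, (E a b c : ℤ) := by
    intro a b
    rw [mom (E a b) (hE.b a b) (fun k => τ * (k : ℤ)) 0 τ 0 0 0 (by simp) (by simp)
      (by push_cast; ring) (by push_cast; ring) (by push_cast; ring)]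
    ring
  rw [mul_sum]
  refine sum_congr rfl fun a _ => ?_
  rw [mul_sum]
  exact sum_congr rfl fun b _ => e1 a b

end
end Pool.Agent.H37R3.Pen
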